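import Mathlib

set_option autoImplicit false

namespace Pool.Agent.Results.MP_adc54a_gt.FiniteToOne

open Set

universe u v

/-- every intersection of members of the family is open -/
def InteriorPreserving {X : Type u} [TopologicalSpace X] (𝒱 : Set (Set X)) : Prop :=
  ∀ 𝒲 ⊆ 𝒱, IsOpen (⋂₀ 𝒲)

def Orthocompact (X : Type u) [TopologicalSpace X] : Prop :=
  ∀ 𝒰 : Set (Set X), (∀ U ∈ 𝒰, IsOpen U) → ⋃₀ 𝒰 = univ →
    ∃ 𝒱 : Set (Set X), (∀ V ∈ 𝒱, IsOpen V ∧ ∃ U ∈ 𝒰, V ⊆ U) ∧ ⋃₀ 𝒱 = univ ∧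
      InteriorPreserving 𝒱

def SigmaOrthocompact (X : Type u) [TopologicalSpace X] : Prop :=
  ∀ 𝒰 : Set (Set X), (∀ U ∈ 𝒰, IsOpen U) → ⋃₀ 𝒰 = univ →
    ∃ 𝒱 : ℕ → Set (Set X), (∀ n, ∀ V ∈ 𝒱 n, IsOpen V ∧ ∃ U ∈ 𝒰, V ⊆ U) ∧
      (⋃ n, ⋃₀ 𝒱 n) = univ ∧ ∀ n, InteriorPreserving (𝒱 n)

def CountablyMetacompact (X : Type u) [TopologicalSpace X] : Prop :=
  ∀ U : ℕ → Set X, (∀ n, IsOpen (U n)) → (⋃ n, U n) = univ →
    ∃ V : ℕ → Set X, (∀ n, IsOpen (V n) ∧ V n ⊆ U n) ∧ (⋃ n, V n) = univ ∧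
      ∀ x, {n | x ∈ V n}.Finite

def Net {X : Type u} [TopologicalSpace X] (R : X → Set X) : Prop :=
  (∀ x, IsOpen (R x)) ∧ (∀ x, x ∈ R x) ∧ ∀ x, ∀ z ∈ R x, R z ⊆ R x

lemma exists_net {X : Type u} [TopologicalSpace X] (hX : Orthocompact X) (N : X → Set X)
    (h1 : ∀ x, IsOpen (N x)) (h2 : ∀ x, x ∈ N x) : ∃ R, Net R ∧ ∀ z, ∃ x, R z ⊆ N x := by
  obtain ⟨𝒱, hV, hcov, hip⟩ := hX (range N) (by rintro _ ⟨x, rfl⟩; exact h1 x)
    (eq_univ_of_forall fun x => ⟨N x, ⟨x, rfl⟩, h2 x⟩)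
  refine ⟨fun z => ⋂₀ {V | V ∈ 𝒱 ∧ z ∈ V}, ⟨fun z => hip _ (fun V hV => hV.1),
    fun z V hV => hV.2, fun x z hz w hw V hV => hw V ⟨hV.1, hz V hV⟩⟩, fun z => ?_⟩
  obtain ⟨V, hV1, hz⟩ : z ∈ ⋃₀ 𝒱 := hcov ▸ mem_univ z
  obtain ⟨_, _, ⟨x, rfl⟩, h⟩ := hV V hV1
  exact ⟨x, fun w hw => h (hw V ⟨hV1, hz⟩)⟩

section
variable {X : Type u} {Y : Type v} [TopologicalSpace X] [TopologicalSpace Y] {f : X → Y}

def small (f : X → Y) (R : X → Set X) (y : Y) : Set Y :=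
  {w | ∀ x, f x = w → ∃ x', f x' = y ∧ x ∈ R x'}

lemma small_net (hc : IsClosedMap f) {R : X → Set X} (hR : Net R) : Net (small f R) := by
  refine ⟨fun y => ?_, fun y x hx => ⟨x, hx, hR.2.1 x⟩, fun y z hz w hw x hx => ?_⟩
  · have : small f R y = (f '' (⋃ x' ∈ f ⁻¹' {y}, R x')ᶜ)ᶜ := by
      ext w
      simp only [small, mem_ofPred_eq, mem_compl_iff, mem_image, mem_iUnion, mem_preimage,
        mem_singleton_iff, exists_prop, not_exists, not_and]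
      constructor
      · intro h x hx hxw
        obtain ⟨x', h1, h2⟩ := h x hxw
        exact hx x' h1 h2
      · intro h x hx
        by_contra hn
        push Not at hn
        exact h x hn hx
    rw [this, isOpen_compl_iff]
    exact hc _ (isOpen_biUnion fun x' _ => hR.1 x').isClosed_compl
  · obtain ⟨x1, h1, h2⟩ := hw x hx
    obtain ⟨x2, h3, h4⟩ := hz x1 h1
    exact ⟨x2, h3, hR.2.2 x2 x1 h4 h2⟩

lemma step (hX : Orthocompact X) (hf : Continuous f) (hc : IsClosedMap f)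
    (hfin : ∀ y, (f ⁻¹' {y}).Finite) (𝒰 : Set (Set Y)) (hU : ∀ U ∈ 𝒰, IsOpen U)
    (hcov : ⋃₀ 𝒰 = univ) (k : ℕ) :
    ∃ R : X → Set X, Net R ∧ ∀ y, ∀ K : Finset X, (∀ x ∈ K, f x = y) → K.card ≤ k →
      ∃ U ∈ 𝒰, y ∈ U ∧ ∀ x ∈ K, ∀ z ∈ R x, f z ∈ U := by
  classical
  have hcov' : ∀ y, ∃ U ∈ 𝒰, y ∈ U := fun y => (hcov ▸ mem_univ y : y ∈ ⋃₀ 𝒰)
  induction k with
  | zero =>
    refine ⟨fun _ => univ, ⟨fun _ => isOpen_univ, fun _ => trivial, fun _ _ _ => subset_rfl⟩, ?_⟩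
    intro y K _ hK
    obtain ⟨U, h1, h2⟩ := hcov' y
    have : K = ∅ := Finset.card_eq_zero.mp (Nat.le_zero.mp hK)
    subst this
    exact ⟨U, h1, h2, by simp⟩
  | succ k ih =>
    obtain ⟨R, hR, hK⟩ := ih
    choose! U hU1 hU2 hU3 using hK
    let S : Y → Set (Finset X) := fun y => {K | (∀ x ∈ K, f x = y) ∧ K.card ≤ k}
    have hS : ∀ y, (S y).Finite := by
      intro y
      apply ((hfin y).toFinset.powerset.finite_toSet).subset
      intro K hK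
      simp only [Finset.coe_powerset, mem_preimage, mem_powerset_iff, Finite.coe_toFinset]
      exact fun x hx => hK.1 x hx
    let V : Y → Set Y := fun y => small f R y ∩ ⋂ K ∈ S y, U y K
    have hW := small_net hc hR
    have hVo : ∀ y, IsOpen (V y) := fun y =>
      (hW.1 y).inter ((hS y).isOpen_biInter fun K hK => hU _ (hU1 y K hK.1 hK.2))
    have hVm : ∀ y, y ∈ V y := fun y =>
      ⟨hW.2.1 y, mem_iInter₂.mpr fun K hK => hU2 y K hK.1 hK.2⟩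
    obtain ⟨R', hR', hsub⟩ := exists_net hX (fun x => f ⁻¹' V (f x))
      (fun x => (hVo _).preimage hf) (fun x => hVm _)
    refine ⟨fun x => R' x ∩ R x, ⟨fun x => (hR'.1 x).inter (hR.1 x),
      fun x => ⟨hR'.2.1 x, hR.2.1 x⟩, fun x z hz =>
        inter_subset_inter (hR'.2.2 x z hz.1) (hR.2.2 x z hz.2)⟩, ?_⟩
    intro w K' hK' hcard
    rcases K'.eq_empty_or_nonempty with rfl | ⟨z, hz⟩
    · obtain ⟨U, h1, h2⟩ := hcov' w
      exact ⟨U, h1, h2, by simp⟩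
    obtain ⟨x0, hx0⟩ := hsub z
    have hzV : f z ∈ V (f x0) := hx0 (hR'.2.1 z)
    have hg : ∀ x ∈ K', ∃ x', f x' = f x0 ∧ x ∈ R x' := fun x hx =>
      hzV.1 x ((hK' x hx).trans (hK' z hz).symm)
    choose! g hg1 hg2 using hg
    have hmem : (K'.erase z).image g ∈ S (f x0) := by
      refine ⟨fun x hx => ?_, Finset.card_image_le.trans ?_⟩
      · obtain ⟨a, ha, rfl⟩ := Finset.mem_image.mp hx
        exact hg1 a (Finset.mem_of_mem_erase ha)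
      · rw [Finset.card_erase_of_mem hz]; omega
    refine ⟨U (f x0) ((K'.erase z).image g), hU1 _ _ hmem.1 hmem.2, ?_, ?_⟩
    · rw [← hK' z hz]; exact mem_iInter₂.mp hzV.2 _ hmem
    · intro x hx t ht
      by_cases hxz : x = z
      · subst hxz
        exact mem_iInter₂.mp (hx0 ht.1).2 _ hmem
      · exact hU3 _ _ hmem.1 hmem.2 (g x)
          (Finset.mem_image_of_mem g (Finset.mem_erase.mpr ⟨hxz, hx⟩)) t
          (hR.2.2 _ _ (hg2 x hx) ht.2)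

lemma nets (hX : Orthocompact X) (hf : Continuous f) (hs : Function.Surjective f)
    (hc : IsClosedMap f) (hfin : ∀ y, (f ⁻¹' {y}).Finite) (𝒰 : Set (Set Y))
    (hU : ∀ U ∈ 𝒰, IsOpen U) (hcov : ⋃₀ 𝒰 = univ) :
    ∃ W : ℕ → Y → Set Y, (∀ k, Net (W k)) ∧
      ∀ k y, (f ⁻¹' {y}).ncard ≤ k → ∃ U ∈ 𝒰, W k y ⊆ U := by
  choose R hR hK using step hX hf hc hfin 𝒰 hU hcov
  refine ⟨fun k => small f (R k), fun k => small_net hc (hR k), fun k y hk => ?_⟩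
  obtain ⟨U, h1, _, h3⟩ := hK k y (hfin y).toFinset (fun x hx => by simpa using hx)
    (by rwa [ncard_eq_toFinset_card _ (hfin y)] at hk)
  refine ⟨U, h1, fun w hw => ?_⟩
  obtain ⟨x, rfl⟩ := hs w
  obtain ⟨x', h4, h5⟩ := hw x rfl
  exact h3 x' (by simpa using h4) x h5

lemma cm_image (hX : CountablyMetacompact X) (hf : Continuous f) (hs : Function.Surjective f)
    (hc : IsClosedMap f) : CountablyMetacompact Y := by
  classical
  intro G hG hcov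
  obtain ⟨V, hV, hVc, hfin⟩ := hX (fun n => f ⁻¹' G n) (fun n => (hG n).preimage hf)
    (by rw [← preimage_iUnion, hcov, preimage_univ])
  let H : ℕ → Set Y := fun n => f '' (⋃ m ∈ Ici n, V m)ᶜ
  have hH : ∀ n, IsClosed (H n) := fun n =>
    hc _ (isOpen_biUnion fun m _ => (hV m).1).isClosed_compl
  refine ⟨fun n => G n \ H n, fun n => ⟨(hG n).sdiff (hH n), sdiff_subset⟩, ?_, ?_⟩
  · refine eq_univ_of_forall fun y => ?_
    have hex : ∃ n, y ∈ G n := mem_iUnion.mp (hcov ▸ mem_univ y)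
    refine mem_iUnion.mpr ⟨Nat.find hex, Nat.find_spec hex, ?_⟩
    rintro ⟨x, hx, rfl⟩
    obtain ⟨m, hm⟩ := mem_iUnion.mp (hVc ▸ mem_univ x : x ∈ ⋃ n, V n)
    by_cases h : m < Nat.find hex
    · exact Nat.find_min hex h ((hV m).2 hm)
    · exact hx (mem_biUnion (show m ∈ Ici (Nat.find hex) from not_lt.mp h) hm)
  · intro y
    obtain ⟨x, rfl⟩ := hs y
    obtain ⟨b, hb⟩ := (hfin x).bddAbove
    apply (finite_Iic b).subset
    intro n hn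
    by_contra h
    apply hn.2
    refine ⟨x, fun hx => ?_, rfl⟩
    obtain ⟨m, hm, hxm⟩ := mem_iUnion₂.mp hx
    have h1 : m ≤ b := hb hxm
    have h2 : n ≤ m := hm
    exact h (h2.trans h1)

end

lemma ip_of_net {Y : Type v} [TopologicalSpace Y] {W : Y → Set Y} (hW : Net W) (A : Set Y) :
    InteriorPreserving (W '' A) := by
  intro 𝒲 h
  rw [isOpen_iff_forall_mem_open]
  intro z hz
  refine ⟨W z, fun w hw V hV => ?_, hW.1 z, hW.2.1 z⟩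
  obtain ⟨y, _, rfl⟩ := h hV
  exact hW.2.2 y z (hz _ hV) hw

theorem result {X : Type u} {Y : Type v} [TopologicalSpace X] [TopologicalSpace Y] (f : X → Y)
    (hf : Continuous f) (hs : Function.Surjective f) (hc : IsClosedMap f)
    (hfin : ∀ y, (f ⁻¹' {y}).Finite) (hX : Orthocompact X) :
    SigmaOrthocompact Y ∧
      ((∃ n, ∀ y, (f ⁻¹' {y}).ncard ≤ n) → Orthocompact Y) ∧
      (CountablyMetacompact X ∨ CountablyMetacompact Y → Orthocompact Y) := by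
  refine ⟨fun 𝒰 hU hcov => ?_, fun ⟨n, hn⟩ 𝒰 hU hcov => ?_, fun h 𝒰 hU hcov => ?_⟩
  · obtain ⟨W, hW, h⟩ := nets hX hf hs hc hfin 𝒰 hU hcov
    refine ⟨fun k => W k '' {y | (f ⁻¹' {y}).ncard ≤ k}, ?_, ?_, fun k => ip_of_net (hW k) _⟩
    · rintro k _ ⟨y, hy, rfl⟩
      exact ⟨(hW k).1 y, h k y hy⟩
    · exact eq_univ_of_forall fun y => mem_iUnion.mpr
        ⟨(f ⁻¹' {y}).ncard, _, ⟨y, le_refl (f ⁻¹' {y}).ncard, rfl⟩, (hW _).2.1 y⟩
  · obtain ⟨W, hW, h⟩ := nets hX hf hs hc hfin 𝒰 hU hcov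
    refine ⟨W n '' univ, ?_, ?_, ip_of_net (hW n) _⟩
    · rintro _ ⟨y, _, rfl⟩
      exact ⟨(hW n).1 y, h n y (hn y)⟩
    · exact eq_univ_of_forall fun y => ⟨_, ⟨y, trivial, rfl⟩, (hW _).2.1 y⟩
  · have hY : CountablyMetacompact Y := h.elim (fun h => cm_image h hf hs hc) id
    obtain ⟨W, hW, h⟩ := nets hX hf hs hc hfin 𝒰 hU hcov
    let G : ℕ → Set Y := fun k => {y | ∃ U ∈ 𝒰, W k y ⊆ U}
    have hG : ∀ k, IsOpen (G k) := by
      intro k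
      rw [isOpen_iff_forall_mem_open]
      rintro y ⟨U, hU1, hU2⟩
      exact ⟨W k y, fun z hz => ⟨U, hU1, ((hW k).2.2 y z hz).trans hU2⟩, (hW k).1 y, (hW k).2.1 y⟩
    obtain ⟨V, hV, hVc, hpf⟩ := hY G hG
      (eq_univ_of_forall fun y => mem_iUnion.mpr ⟨_, h _ y le_rfl⟩)
    refine ⟨{T | ∃ k, ∃ y ∈ G k, T = W k y ∩ V k}, ?_, ?_, ?_⟩
    · rintro _ ⟨k, y, ⟨U, hU1, hU2⟩, rfl⟩
      exact ⟨((hW k).1 y).inter (hV k).1, U, hU1, inter_subset_left.trans hU2⟩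
    · refine eq_univ_of_forall fun y => ?_
      obtain ⟨k, hk⟩ := mem_iUnion.mp (hVc ▸ mem_univ y : y ∈ ⋃ n, V n)
      exact ⟨_, ⟨k, y, (hV k).2 hk, rfl⟩, (hW k).2.1 y, hk⟩
    · intro 𝒲 h𝒲
      rw [isOpen_iff_forall_mem_open]
      intro z hz
      refine ⟨⋂ k ∈ {n | z ∈ V n}, W k z ∩ V k, fun w hw T hT => ?_,
        (hpf z).isOpen_biInter fun k _ => ((hW k).1 z).inter (hV k).1,
        mem_iInter₂.mpr fun k hk => ⟨(hW k).2.1 z, hk⟩⟩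
      obtain ⟨k, y, _, rfl⟩ := h𝒲 hT
      have h1 := hz _ hT
      have h2 := mem_iInter₂.mp hw k h1.2
      exact ⟨(hW k).2.2 y z h1.1 h2.1, h2.2⟩

end Pool.Agent.Results.MP_adc54a_gt.FiniteToOne
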